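import Mathlib
import Pool.Agent.H.MP_1d8377_an.Green
import Pool.Agent.H.MP_1d8377_an.Shell
import Pool.Agent.H.MP_1d8377_an.Profile
import Pool.Agent.H.MP_1d8377_an.Seq

open MeasureTheory Set Filter
open scoped ENNReal NNReal ContDiff Topology
open Pool.Agent.H.MP_1d8377_an

namespace Pool.Agent.Results.MP_1d8377_an.Counterexample

/-- For every dimension `N`, every nonempty open `Ω ⊆ ℝ^N` carries a function `u ≥ 0`, smooth,
not identically zero and compactly supported in `Ω`, and a measurable potential `V ≥ 0` with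
`Vu ∈ L¹(Ω)` and `Δu ≤ Vu` in the sense of distributions in `Ω`, such that
`V^{1/2} ∈ L^p(Ω)` for every `p < 2` (the same `u` and `V` for all these `p`). -/
theorem result (N : ℕ) (Ω : Set (EuclideanSpace ℝ (Fin N))) (hΩ : IsOpen Ω)
    (hne : Ω.Nonempty) :
    ∃ u V : EuclideanSpace ℝ (Fin N) → ℝ,
      ContDiff ℝ ∞ u ∧ HasCompactSupport u ∧ tsupport u ⊆ Ω ∧
      (∀ x, 0 ≤ u x) ∧ (∃ x ∈ Ω, u x ≠ 0) ∧
      Measurable V ∧ (∀ x, 0 ≤ V x) ∧
      IntegrableOn u Ω ∧ IntegrableOn (fun x => V x * u x) Ω ∧
      (∀ φ : EuclideanSpace ℝ (Fin N) → ℝ, ContDiff ℝ ∞ φ → HasCompactSupport φ →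
        tsupport φ ⊆ Ω → (∀ x, 0 ≤ φ x) →
        ∫ x in Ω, u x * Laplacian.laplacian φ x ≤ ∫ x in Ω, V x * u x * φ x) ∧
      (∀ p : ℝ≥0∞, p < 2 → MemLp (fun x => √(V x)) p (volume.restrict Ω)) := by
  obtain ⟨x0, hx0⟩ := hne
  obtain ⟨ρ, hρ, hball⟩ : ∃ ρ : ℝ, 0 < ρ ∧ Metric.closedBall x0 ρ ⊆ Ω :=
    Metric.nhds_basis_closedBall.mem_iff.1 (hΩ.mem_nhds hx0)
  obtain ⟨G, G1, h, hGcd, hGd, hG1d, hcont, hGz, hGpos, hG1nn, hG1z, hnn, hz, hbd⟩ :=
    exists_profile ee_pos hh_pos cc_pos (fun k => (ee_le k).trans (by linarith [cc_pos k])) gap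
      cc_tendsto hh_summable
  set r : ℝ := (ρ ^ 2)⁻¹ with hr
  have hr0 : 0 < r := by positivity
  set s : EuclideanSpace ℝ (Fin N) → ℝ := fun x => 1 - r * ‖x - x0‖ ^ 2 with hs
  have hscd : ContDiff ℝ ∞ s := by
    apply contDiff_const.sub
    apply contDiff_const.mul
    exact (contDiff_id.sub contDiff_const).norm_sq ℝ
  have hsc : Continuous s := hscd.continuous
  set u : EuclideanSpace ℝ (Fin N) → ℝ := fun x => G (s x) with hu
  set V : EuclideanSpace ℝ (Fin N) → ℝ := fun x => if 0 < s x then 4 * r * h (s x) / G (s x) else 0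
    with hV
  have hucd : ContDiff ℝ ∞ u := hGcd.comp hscd
  have hGnn : ∀ t, 0 ≤ G t := by
    intro t
    rcases le_or_gt t 0 with ht | ht
    · rw [hGz t ht]
    · exact (hGpos t ht).le
  have hspos : ∀ x, 0 < s x → x ∈ Metric.ball x0 ρ := by
    intro x hx
    rw [mem_ball_iff_norm]
    have h1 : r * ‖x - x0‖ ^ 2 < 1 := by simpa [hs] using hx
    rw [hr, inv_mul_lt_iff₀ (by positivity), mul_one] at h1
    exact lt_of_pow_lt_pow_left₀ 2 hρ.le h1
  have hVu : ∀ x, V x * u x = 4 * r * h (s x) := by
    intro x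
    simp only [hV, hu]
    split_ifs with hx
    · exact div_mul_cancel₀ _ (hGpos _ hx).ne'
    · rw [hz _ (not_lt.1 hx)]; simp
  have hVnn : ∀ x, 0 ≤ V x := by
    intro x
    simp only [hV]
    split_ifs with hx
    · exact div_nonneg (mul_nonneg (by positivity) (hnn _)) (hGnn _)
    · exact le_rfl
  have hVmeas : Measurable V := by
    apply Measurable.ite
    · exact measurableSet_lt measurable_const hsc.measurable
    · exact ((measurable_const.mul (hcont.comp hsc).measurable)).div
        ((hGcd.continuous.comp hsc).measurable)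
    · exact measurable_const
  have husupp : Function.support u ⊆ Metric.closedBall x0 ρ := by
    intro x hx
    apply Metric.ball_subset_closedBall
    apply hspos
    by_contra hn
    exact hx (hGz _ (not_lt.1 hn))
  have hcs : HasCompactSupport u :=
    HasCompactSupport.of_support_subset_isCompact (isCompact_closedBall x0 ρ) husupp
  have htsupp : tsupport u ⊆ Metric.closedBall x0 ρ :=
    closure_minimal husupp Metric.isClosed_closedBall
  have hfsupp : Function.support (fun x => 4 * r * h (s x)) ⊆ Metric.closedBall x0 ρ := by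
    intro x hx
    apply Metric.ball_subset_closedBall
    apply hspos
    by_contra hn
    apply hx
    simp [hz _ (not_lt.1 hn)]
  have hfcs : HasCompactSupport (fun x => 4 * r * h (s x)) :=
    HasCompactSupport.of_support_subset_isCompact (isCompact_closedBall x0 ρ) hfsupp
  have hfcont : Continuous (fun x => 4 * r * h (s x)) :=
    continuous_const.mul (hcont.comp hsc)
  refine ⟨u, V, hucd, hcs, htsupp.trans hball, fun x => hGnn _, ⟨x0, hx0, ?_⟩, hVmeas, hVnn,
    (hucd.continuous.integrable_of_hasCompactSupport hcs).integrableOn, ?_, ?_, ?_⟩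
  · have : s x0 = 1 := by simp [hs]
    simp only [hu, this]
    exact (hGpos 1 one_pos).ne'
  · simp_rw [hVu]
    exact (hfcont.integrable_of_hasCompactSupport hfcs).integrableOn
  · intro φ hφ hφc _ hφ0
    simp_rw [hVu]
    rw [setIntegral_eq_integral_of_forall_compl_eq_zero
      (f := fun x => u x * Laplacian.laplacian φ x),
      setIntegral_eq_integral_of_forall_compl_eq_zero (f := fun x => 4 * r * h (s x) * φ x)]
    rotate_left
    · intro x hx
      have : 4 * r * h (s x) = 0 := by
        by_contra hn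
        exact hx (hball (hfsupp hn))
      rw [this, zero_mul]
    · intro x hx
      have : u x = 0 := by
        by_contra hn
        exact hx (hball (husupp hn))
      rw [this, zero_mul]
    have hu2 : ContDiff ℝ 2 u := contDiff_infty.1 hucd 2
    have hφ2 : ContDiff ℝ 2 φ := contDiff_infty.1 hφ 2
    rw [green hu2 hcs hφ2]
    have hlap : ∀ x, Laplacian.laplacian u x = h (s x) * (4 * r ^ 2 * ‖x - x0‖ ^ 2)
        - G1 (s x) * (2 * r * Module.finrank ℝ (EuclideanSpace ℝ (Fin N))) := fun x =>
      laplacian_profile hGd hG1d x0 r x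
    have hG1c : Continuous G1 := continuous_iff_continuousAt.2 fun t => (hG1d t).continuousAt
    have hlapc : Continuous (Laplacian.laplacian u) := by
      have : Laplacian.laplacian u = fun x => h (s x) * (4 * r ^ 2 * ‖x - x0‖ ^ 2)
        - G1 (s x) * (2 * r * Module.finrank ℝ (EuclideanSpace ℝ (Fin N))) := by
        ext x; exact hlap x
      rw [this]
      have := hcont.comp hsc
      have := hG1c.comp hsc
      fun_prop
    apply integral_mono
    · exact (hlapc.mul hφ.continuous).integrable_of_hasCompactSupport hφc.mul_left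
    · exact (hfcont.mul hφ.continuous).integrable_of_hasCompactSupport hφc.mul_left
    · intro x
      apply mul_le_mul_of_nonneg_right _ (hφ0 x)
      change Laplacian.laplacian u x ≤ 4 * r * h (s x)
      rw [hlap x]
      rcases le_or_gt (s x) 0 with hx | hx
      · rw [hz _ hx, hG1z _ hx]; simp
      · have h1 : r * ‖x - x0‖ ^ 2 ≤ 1 := by
          have : 0 < 1 - r * ‖x - x0‖ ^ 2 := hx
          linarith
        have h2 : 0 ≤ G1 (s x) * (2 * r * Module.finrank ℝ (EuclideanSpace ℝ (Fin N))) := by
          have := hG1nn _ hx.le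
          positivity
        have h3 : h (s x) * (4 * r ^ 2 * ‖x - x0‖ ^ 2) ≤ h (s x) * (4 * r) := by
          apply mul_le_mul_of_nonneg_left _ (hnn _)
          nlinarith
        linarith
  · intro p hp
    have haesm : AEStronglyMeasurable (fun x => √(V x)) (volume.restrict Ω) :=
      hVmeas.sqrt.aestronglyMeasurable
    rcases eq_or_ne p 0 with hp0 | hp0
    · rw [hp0, memLp_zero_iff_aestronglyMeasurable]; exact haesm
    have hptop : p ≠ ⊤ := (hp.trans_le le_top).ne
    refine ⟨haesm, ?_⟩
    rw [eLpNorm_lt_top_iff_lintegral_rpow_enorm_lt_top hp0 hptop]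
    set q := p.toReal with hq
    have hq0 : 0 < q := ENNReal.toReal_pos hp0 hptop
    have hq2 : q < 2 := by
      have := (ENNReal.toReal_lt_toReal hptop (by norm_num)).2 hp
      simpa using this
    set α := q / 2 with hα
    have hα0 : 0 < α := by positivity
    have hα1 : α < 1 := by rw [hα]; linarith
    set Mk : ℕ → ℝ := fun k => hh k / (cc k / 4 * (hh (k + 1) * ee (k + 1))) with hMk
    have hMk0 : ∀ k, 0 ≤ Mk k := fun k => by
      have := hh_pos k; have := hh_pos (k + 1); have := cc_pos k; have := ee_pos (k + 1)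
      simp only [hMk]; positivity
    set S : ℕ → Set (EuclideanSpace ℝ (Fin N)) := fun k =>
      {x | cc k - ee k < 1 - (ρ ^ 2)⁻¹ * ‖x - x0‖ ^ 2 ∧ 1 - (ρ ^ 2)⁻¹ * ‖x - x0‖ ^ 2 < cc k + ee k}
      with hS
    have hSmeas : ∀ k, MeasurableSet (S k) := by
      intro k
      exact (measurableSet_lt measurable_const hsc.measurable).inter
        (measurableSet_lt hsc.measurable measurable_const)
    have hpt : ∀ x, ‖√(V x)‖ₑ ^ q ≤ ∑' k, (S k).indicator
        (fun _ => ENNReal.ofReal ((4 * r * Mk k) ^ α)) x := by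
      intro x
      have e1 : ‖√(V x)‖ₑ ^ q = ENNReal.ofReal (V x ^ α) := by
        rw [Real.enorm_of_nonneg (Real.sqrt_nonneg _),
          ENNReal.ofReal_rpow_of_nonneg (Real.sqrt_nonneg _) hq0.le, Real.sqrt_eq_rpow,
          ← Real.rpow_mul (hVnn x)]
        congr 2
        rw [hα]; ring
      rw [e1]
      rcases eq_or_ne (V x) 0 with hV0 | hV0
      · rw [hV0, Real.zero_rpow hα0.ne', ENNReal.ofReal_zero]
        exact zero_le
      have hsx : 0 < s x := by
        by_contra hn
        apply hV0
        simp only [hV]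
        rw [if_neg hn]
      have hVx : V x = 4 * r * h (s x) / G (s x) := by
        simp only [hV]
        rw [if_pos hsx]
      have hhx : h (s x) ≠ 0 := by
        intro h0
        apply hV0
        rw [hVx, h0]; simp
      obtain ⟨k, hk1, hk2, hk3⟩ := hbd (s x) hsx hhx
      have hxS : x ∈ S k := ⟨hk1, hk2⟩
      have hle : V x ≤ 4 * r * Mk k := by
        rw [hVx, div_le_iff₀ (hGpos _ hsx), mul_assoc (4 * r)]
        exact mul_le_mul_of_nonneg_left hk3 (by positivity)
      calc ENNReal.ofReal (V x ^ α) ≤ ENNReal.ofReal ((4 * r * Mk k) ^ α) := by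
            apply ENNReal.ofReal_le_ofReal
            exact Real.rpow_le_rpow (hVnn x) hle hα0.le
        _ = (S k).indicator (fun _ => ENNReal.ofReal ((4 * r * Mk k) ^ α)) x := by
            rw [indicator_of_mem hxS]
        _ ≤ _ := ENNReal.le_tsum k
    have hw : volume (Metric.ball (0 : EuclideanSpace ℝ (Fin N)) 1) ≠ ⊤ := measure_ball_lt_top.ne
    set n : ℕ := Module.finrank ℝ (EuclideanSpace ℝ (Fin N)) with hn
    calc ∫⁻ x in Ω, ‖√(V x)‖ₑ ^ q ≤ ∫⁻ x, ‖√(V x)‖ₑ ^ q := setLIntegral_le_lintegral _ _
      _ ≤ ∫⁻ x, ∑' k, (S k).indicator (fun _ => ENNReal.ofReal ((4 * r * Mk k) ^ α)) x :=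
          lintegral_mono hpt
      _ = ∑' k, ∫⁻ x, (S k).indicator (fun _ => ENNReal.ofReal ((4 * r * Mk k) ^ α)) x := by
          apply lintegral_tsum
          intro k
          exact (measurable_const.indicator (hSmeas k)).aemeasurable
      _ = ∑' k, ENNReal.ofReal ((4 * r * Mk k) ^ α) * volume (S k) := by
          congr 1; ext1 k
          rw [lintegral_indicator_const (hSmeas k)]
      _ ≤ ∑' k, ENNReal.ofReal ((4 * r * Mk k) ^ α) *
            (ENNReal.ofReal (ρ ^ n * n * ((cc k + ee k) - (cc k - ee k)))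
              * volume (Metric.ball (0 : EuclideanSpace ℝ (Fin N)) 1)) := by
          gcongr with k
          apply shell_measure x0 hρ
          · have := ee_le k; have := cc_pos k; linarith
          · have := ee_pos k; linarith
          · exact cc_add_ee_le k
      _ = ∑' k, ENNReal.ofReal (((4 * r) ^ α * (ρ ^ n * n * 2)) * (ee k * Mk k ^ α))
              * volume (Metric.ball (0 : EuclideanSpace ℝ (Fin N)) 1) := by
          congr 1; ext1 k
          rw [← mul_assoc, ← ENNReal.ofReal_mul (by have := hMk0 k; positivity),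
            Real.mul_rpow (by positivity) (hMk0 k)]
          congr 2
          ring
      _ < ⊤ := by
          rw [ENNReal.tsum_mul_right]
          apply ENNReal.mul_lt_top _ hw.lt_top
          have := (final_summable hα0 hα1).mul_left ((4 * r) ^ α * (ρ ^ n * n * 2))
          exact this.tsum_ofReal_lt_top

end Pool.Agent.Results.MP_1d8377_an.Counterexample
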